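import Pool.Agent.Lib.MP_0c1c75_co.All3
import Pool.Agent.Lib.MP_0c1c75_co.CdBound
import Pool.Agent.Lib.MP_0c1c75_co.GPlus
import Pool.Agent.Lib.MP_0c1c75_co.GPchi
import Pool.Agent.Lib.MP_0c1c75_co.GPpoly
import Pool.Agent.Lib.MP_0c1c75_co.Conc
import Pool.Agent.Lib.MP_0c1c75_co.Thm2p
import Pool.Agent.Lib.MP_0c1c75_co.JmpKir
import Pool.Agent.Lib.MP_0c1c75_co.ArBas
import Pool.Agent.Lib.MP_0c1c75_co.ArLin
import Pool.Agent.Lib.MP_0c1c75_co.ArJac
import Pool.Agent.Lib.MP_0c1c75_co.ArMom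
import Pool.Agent.Lib.MP_0c1c75_co.ArSF
import Pool.Agent.Lib.MP_0c1c75_co.ArUry
import Pool.Agent.Lib.MP_0c1c75_co.ArRad
import Pool.Agent.Lib.MP_0c1c75_co.ArCirc
import Pool.Agent.Lib.MP_0c1c75_co.ArMain
import Pool.Agent.Lib.MP_0c1c75_co.ArInt

/-!
Kneser-Poulsen conjecture for intersections of balls, arbitrary radii: the inequality for
contractions by a factor `c`, up to a constant which depends on the dimension and on `c` and is one
for `c ≤ 0.517` (in dimension three for `c ≤ 0.562`).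
-/

open MeasureTheory

namespace Pool.Agent.Lib.MP_0c1c75_co.Old.ApproximateKP

/-- the constant for all contractions -/
noncomputable def constant (d : ℕ) : ℝ :=
  Real.Gamma ((d : ℝ) / 2) * (d.factorial : ℝ) / Real.Gamma (3 * (d : ℝ) / 2) *
    ((3 * (d : ℝ) / 2 - 1) ^ (3 * (d : ℝ) / 2 - 1) /
      ((d : ℝ) ^ d * ((d : ℝ) / 2 - 1) ^ ((d : ℝ) / 2 - 1)))

/-- the factor up to which the inequality is exact -/
noncomputable def exactFactor (d : ℕ) : ℝ := if d = 3 then 0.562 else 0.517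

/-- the constant for contractions by the factor `c`: with `c₀ = exactFactor d` and
`s = max 0 ((c - c₀) / (1 - c₀))` it is `(1 - s + s (constant d)^(-1/d))^(-d)` -/
noncomputable def factorConstant (d : ℕ) (c : ℝ) : ℝ :=
  (1 - max 0 ((c - exactFactor d) / (1 - exactFactor d)) +
    max 0 ((c - exactFactor d) / (1 - exactFactor d)) * constant d ^ (-(1 / (d : ℝ)))) ^
      (-(d : ℝ))

theorem gPlus : Lib.MP_0c1c75_co.GPlusStmt :=
  Lib.MP_0c1c75_co.gPlusStmt (Lib.MP_0c1c75_co.gpChiStmt Lib.MP_0c1c75_co.gpPolyStmt)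

theorem thm2 : Lib.MP_0c1c75_co.Thm2pStmt :=
  Lib.MP_0c1c75_co.thm2pStmt gPlus
    (Lib.MP_0c1c75_co.concStmt Lib.MP_0c1c75_co.allBM Lib.MP_0c1c75_co.allV)
    Lib.MP_0c1c75_co.allV

/-- Kneser-Poulsen inequality for contractions by the factor `c` and arbitrary radii, with the
constant `factorConstant d c`, which is `1` for `c ≤ exactFactor d`. -/
theorem result :
    (∀ d N : ℕ, 2 ≤ d → ∀ c : ℝ, 0 ≤ c → c ≤ 1 → ∀ p q : Fin N → EuclideanSpace ℝ (Fin d),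
      (∀ i j, dist (q i) (q j) ≤ c * dist (p i) (p j)) → ∀ r : Fin N → ℝ,
      volume (⋂ i, Metric.closedBall (p i) (r i)) ≤
        ENNReal.ofReal (factorConstant d c) * volume (⋂ i, Metric.closedBall (q i) (r i))) ∧
    (∀ (d : ℕ) (c : ℝ), c ≤ exactFactor d → factorConstant d c = 1) ∧
    constant 2 = 1 ∧ constant 3 ≤ 1.93 ∧ ∀ d : ℕ, 2 ≤ d → constant d ≤ 4 * √(d : ℝ) := by
  refine ⟨fun d N hd c hc0 hc1 p q hpq r => ?_, fun d c hc => ?_, Lib.MP_0c1c75_co.Cp_two,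
    Lib.MP_0c1c75_co.Cp_three, fun d hd => Lib.MP_0c1c75_co.Cp_le d hd⟩
  · exact Lib.MP_0c1c75_co.Ar.intStmt
      (Lib.MP_0c1c75_co.Ar.mainStmt Lib.MP_0c1c75_co.Ar.basStmt
        (Lib.MP_0c1c75_co.Ar.sFStmt Lib.MP_0c1c75_co.Ar.basStmt
          (Lib.MP_0c1c75_co.Ar.linStmt gPlus)
          (Lib.MP_0c1c75_co.Ar.momStmt Lib.MP_0c1c75_co.Ar.jacStmt))
        (Lib.MP_0c1c75_co.Ar.uryStmt Lib.MP_0c1c75_co.Ar.basStmt Lib.MP_0c1c75_co.allBM
          Lib.MP_0c1c75_co.allP Lib.MP_0c1c75_co.allV)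
        (Lib.MP_0c1c75_co.Ar.radStmt Lib.MP_0c1c75_co.Ar.basStmt Lib.MP_0c1c75_co.allP
          Lib.MP_0c1c75_co.allV)
        Lib.MP_0c1c75_co.Ar.circStmt
        (Lib.MP_0c1c75_co.Jmp.kirStmt Lib.MP_0c1c75_co.allThm2) Lib.MP_0c1c75_co.allV thm2)
      thm2 Lib.MP_0c1c75_co.allBM Lib.MP_0c1c75_co.allV d N hd c p q hc0 hc1 hpq r
  · have h0 : exactFactor d < 1 := by
      unfold exactFactor
      split_ifs <;> norm_num
    have h1 : max 0 ((c - exactFactor d) / (1 - exactFactor d)) = 0 :=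
      max_eq_left (div_nonpos_of_nonpos_of_nonneg (by linarith) (by linarith))
    unfold factorConstant
    rw [h1, sub_zero, zero_mul, add_zero, Real.one_rpow]

end Pool.Agent.Lib.MP_0c1c75_co.Old.ApproximateKP
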