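import Pool.Agent.Lib.MP_0c1c75_co.KG.All

/-!
# MP_0c1c75_co: the Kneser-Poulsen inequality for arbitrarily many balls, quadric class

`q` a contraction of `p` in Euclidean `d`-space, `d ≥ 3`, any number of balls, any radii. If the
points `(p_i, q_i)` of `E^d × E^d` lie in an affine subspace of dimension `d + 3` (no condition for
`d = 3`) and `|p_i - a|² - |q_i - a'|²` does not depend on `i` for some points `a, a'`, then the
volume of the intersection of the balls `B[p_i, r_i]` is at most the volume of the intersection of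
the balls `B[q_i, r_i]`. The case `|p_i - a| = |q_i - a'|` for all `i` is a contraction which keeps
the distances of one further point to all the centres.
-/

open MeasureTheory

namespace Pool.Agent.Lib.MP_0c1c75_co.Old.QuadricContraction

open Pool.Agent.Lib.MP_0c1c75_co.KG

theorem result (d N : ℕ) (hd : 3 ≤ d) (p q : Fin N → EuclideanSpace ℝ (Fin d)) (r : Fin N → ℝ)
    (h : ∀ i j, dist (q i) (q j) ≤ dist (p i) (p j))
    (hdim : Module.finrank ℝ (Submodule.span ℝ
      {w : EuclideanSpace ℝ (Fin d) × EuclideanSpace ℝ (Fin d) |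
        ∃ i j, w = (p i - p j, q i - q j)}) ≤ d + 3)
    (hquad : ∃ (a a' : EuclideanSpace ℝ (Fin d)) (c : ℝ),
      ∀ i, ‖p i - a‖ ^ 2 - ‖q i - a'‖ ^ 2 = c) :
    volume (⋂ i, Metric.closedBall (p i) (r i)) ≤
      volume (⋂ i, Metric.closedBall (q i) (r i)) := by
  obtain ⟨a, a', c, hc⟩ := hquad
  exact (finalStmt d N p q a a' c hd h hdim hc r).1

end Pool.Agent.Lib.MP_0c1c75_co.Old.QuadricContraction
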