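import Pool.Agent.Lib.MP_0c1c75_co.All3
import Pool.Agent.Lib.MP_0c1c75_co.JmpAll

/-!
Kneser-Poulsen conjecture for intersections of congruent balls: contractions by a factor.
-/

open MeasureTheory

namespace Pool.Agent.Lib.MP_0c1c75_co.Old.StrongContraction

/-- circumradius of a finite family of points -/
noncomputable def circumradius {d N : ℕ} (p : Fin N → EuclideanSpace ℝ (Fin d)) : ℝ :=
  sInf {R : ℝ | 0 ≤ R ∧ ∃ o : EuclideanSpace ℝ (Fin d), ∀ i, ‖p i - o‖ ≤ R}

/-- Contractions by the factor `max {0.8, 1 - C / √d, sin (sin y) / y}`, where `y` is the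
circumradius of the centres divided by the radius of the balls. -/
theorem result :
    ∃ C : ℝ, ∀ (d N : ℕ) (p q : Fin N → EuclideanSpace ℝ (Fin d)) (r : ℝ), 0 < r →
      (∀ i j, dist (q i) (q j) ≤
        max (max 0.8 (1 - C / √d))
          (Real.sin (Real.sin (circumradius p / r)) / (circumradius p / r)) *
        dist (p i) (p j)) →
      volume (⋂ i, Metric.closedBall (p i) r) ≤ volume (⋂ i, Metric.closedBall (q i) r) := by
  obtain ⟨C, hC, h3⟩ := Lib.MP_0c1c75_co.allThm3r
  refine ⟨max C 1, ?_⟩
  intro d N p q r hr hpq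
  change volume (Lib.MP_0c1c75_co.body p r) ≤ volume (Lib.MP_0c1c75_co.body q r)
  rcases Nat.eq_zero_or_pos N with hN0 | hN
  · subst hN0
    have : p = q := by
      funext i
      exact i.elim0
    rw [this]
  rcases Nat.eq_zero_or_pos d with hd0 | hd
  · subst hd0
    have : p = q := Subsingleton.elim _ _
    rw [this]
  obtain ⟨l, o, R, hl, hl1, ho, hR, hle, hsum⟩ := Lib.MP_0c1c75_co.allC d N hN p
  have hcp : circumradius p = R := Lib.MP_0c1c75_co.Thm1.circ_eq Lib.MP_0c1c75_co.allCA hN p l o R
    hl hl1 ho hR hle hsum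
  rw [hcp] at hpq
  rcases lt_or_ge r R with hrR | hRr
  · rw [((Lib.MP_0c1c75_co.allCA d N hN).1 p l o R hl hl1 ho hR hsum).2 r hrR]
    simp
  rcases hR.eq_or_lt with hR0 | hR0
  · -- all points are equal
    have hp0 : ∀ i, p i = o := by
      intro i
      have h1 := hle i
      rw [← hR0] at h1
      exact sub_eq_zero.mp (norm_le_zero_iff.mp h1)
    refine Lib.MP_0c1c75_co.Jmp.allFact8 d N p q (fun i j => ?_) r
    have h1 := hpq i j
    rw [hp0 i, hp0 j, dist_self, mul_zero] at h1 ⊢
    exact h1
  set f := max (max 0.8 (1 - max C 1 / √d)) (Real.sin (Real.sin (R / r)) / (R / r)) with hf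
  rcases max_cases (max 0.8 (1 - max C 1 / √d)) (Real.sin (Real.sin (R / r)) / (R / r)) with
    ⟨h, -⟩ | ⟨h, -⟩
  · rcases max_cases (0.8 : ℝ) (1 - max C 1 / √d) with ⟨h', -⟩ | ⟨h', h''⟩
    · have h2 := h.trans h'
      refine Lib.MP_0c1c75_co.Jmp.allFact8 d N p q (fun i j => ?_) r
      have h1 := hpq i j
      rw [hf, h2] at h1
      exact h1
    · have h2 := h.trans h'
      have hd2 : 2 ≤ d := by
        by_contra hlt
        have hd1 : d = 1 := by omega
        rw [hd1, Nat.cast_one, Real.sqrt_one, div_one] at h''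
        have := le_max_right C 1
        linarith
      have hs : 0 < √(d : ℝ) := Real.sqrt_pos.mpr (by exact_mod_cast hd)
      refine h3 d N (1 - max C 1 / √d) hd2 (by linarith) ?_ p q (fun i j => ?_) r
      · have := div_le_div_of_nonneg_right (le_max_left C 1) hs.le
        linarith
      · have h1 := hpq i j
        rw [hf, h2] at h1
        exact h1
  · refine Lib.MP_0c1c75_co.Jmp.allXPlus d N p q o r R hR0 hRr hle fun i j => ?_
    have h1 := hpq i j
    rw [hf, h] at h1
    refine h1.trans (le_of_eq ?_)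
    congr 1
    field_simp

end Pool.Agent.Lib.MP_0c1c75_co.Old.StrongContraction
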